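import Pool.Agent.H25.IC.Final

/-!
# The complexity of `2 ^ n * 3 ^ k` exceeds the bound of Selfridge by a growing amount (MP_95e00a_nt)

`(∀ P, P 1 1 → (∀ a b i j, P a i → P b j → P (a + b) (i + j) ∧ P (a * b) (i + j)) → P m j)` says that
`m` can be written with `j` ones, additions and multiplications (as in the frozen statement). We
prove: for all large `n`, all `k` and all `j` for which `2 ^ n * 3 ^ k` can be written with `j` ones,
`j ≥ 3 log_3 (2 ^ n * 3 ^ k) + log n / (10 log log n)`.

Proof. Drop the small summands in an expression tree: the defect `j - 3 log_3` pays 0.98 for each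
large addition on the way, and at least a constant for every maximal subtree of bounded size which
is not a power of 3. If there are few large additions, their sizes leave a gap; cutting there gives
`2 ^ n * 3 ^ k = 3 ^ y * Q * (1 + tiny)` with `Q` small, i.e. a tiny value of a linear form
`d log 2 - k' log 3 - log A`. This contradicts a lower bound for linear forms in three logarithms of
integers which is linear in the height of `A` (Pool/Agent/H25/NB: auxiliary functions, descent over
square roots, proved from scratch), `A` not 1, and similarly for `A = 1`.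
-/

set_option autoImplicit false

namespace Pool.Agent.Results.MP_95e00a_nt.DefectGrowth

open Pool.Agent.H25.IC

theorem result : ∃ n₀ : ℕ, ∀ n k j : ℕ, n₀ ≤ n →
    (∀ P : ℕ → ℕ → Prop, P 1 1 →
      (∀ a b i j : ℕ, P a i → P b j → P (a + b) (i + j) ∧ P (a * b) (i + j)) →
      P (2 ^ n * 3 ^ k) j) →
    3 * Real.logb 3 ((2 : ℝ) ^ n * 3 ^ k) +
      Real.log n / (10 * Real.log (Real.log n)) ≤ j := by
  obtain ⟨n₀, hn₀⟩ := Filter.eventually_atTop.mp defect
  refine ⟨n₀, fun n k j hn h => ?_⟩
  obtain ⟨e, he, hj⟩ := h (fun a i => ∃ e : Ex, e.val = a ∧ e.sz = i) ⟨Ex.one, rfl, rfl⟩ (by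
    rintro a b i j ⟨x, hx, hi⟩ ⟨y, hy, hj⟩
    exact ⟨⟨Ex.add x y, by rw [← hx, ← hy]; rfl, by rw [← hi, ← hj]; rfl⟩,
      ⟨Ex.mul x y, by rw [← hx, ← hy]; rfl, by rw [← hi, ← hj]; rfl⟩⟩)
  have h1 := hn₀ n hn k e he
  have hL := Ex.L_gt
  have hL3 : Real.log 3 = 3 * Ex.L := by unfold Ex.L; ring
  unfold Ex.kap at h1
  rw [he, hj] at h1
  push_cast at h1
  have h2 : Real.logb 3 ((2 : ℝ) ^ n * 3 ^ k) * (3 * Ex.L) = Real.log ((2 : ℝ) ^ n * 3 ^ k) := by
    unfold Real.logb
    rw [← hL3]
    have : Real.log 3 ≠ 0 := by rw [hL3]; positivity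
    field_simp
  have h3 : (3 * Real.logb 3 ((2 : ℝ) ^ n * 3 ^ k) +
      Real.log n / (10 * Real.log (Real.log n))) * Ex.L ≤ j * Ex.L := by
    linarith
  exact le_of_mul_le_mul_right h3 (by linarith)

end Pool.Agent.Results.MP_95e00a_nt.DefectGrowth
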